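import Pool.Agent.H67.Kb4

namespace Pool.Agent.Results.MP_8f2dc9_al.Klein

universe u

theorem result : ∃ (V : Type) (X : SimpleGraph V), X.Connected ∧ H67.Kb.CoarselyTransitive X ∧
    ∀ (W : Type u) (Y : SimpleGraph W), Y.Connected → H67.Kb.VertexTransitive Y →
      ¬ H67.Kb.QuasiIsometric X Y :=
  ⟨_, H67.Kb.X (fun j => (H67.Kb.sc j : ℤ)), H67.Kb.X_conn,
    H67.Kb.X_coarse (fun j => by have := H67.Kb.sc_ge j; omega), fun _ => H67.Kb.not_qi⟩

end Pool.Agent.Results.MP_8f2dc9_al.Klein
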